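import Pool.Agent.F5H.StmtsN

/-!
Row N_BOX of squad F5H: the box inequality `BOXStmt` from `NEAStmt`, `VOLStmt`, `WINStmt`.
-/

set_option autoImplicit false

open MeasureTheory Filter Topology
open scoped ENNReal

namespace Pool.Agent.F5H.BN.H67

open Pool.Agent.BTL Pool.Agent.F5S Pool.Agent.F5H Pool.Agent.Helper48_F5

theorem rc_sub (a b : ℤ × ℤ) : rc (a - b) = rc a - rc b := by
  simp [rc]

theorem r3_sub (a b : Z6) : r3 (a - b) = r3 a - r3 b := by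
  simp only [r3, Prod.fst_sub, Prod.snd_sub, rc_sub, Prod.mk_sub_mk]

theorem t3_sub (a b : R6) (l : Fin 3) : t3 (a - b) l = t3 a l - t3 b l := by
  fin_cases l <;> simp [t3]

theorem mid_sub (h x y : Z6) : mid (r3 h) (r3 x) - mid (r3 h) (r3 y) = r3 (x - y) := by
  rw [r3_sub]; simp only [mid]; abel

theorem continuous_t3 (l : Fin 3) : Continuous fun m : R6 => t3 m l := by
  fin_cases l
  · exact continuous_fst
  · exact continuous_fst.comp continuous_snd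
  · exact continuous_snd.comp continuous_snd

/-- the set of VOL -/
def Om (T k : ℝ) (h m : R6) : Set ((ℝ × ℝ × ℝ) × R6) :=
  {z | (∀ l, ‖t3 z.2 l - (1 + k / T) • t3 m l‖ ≤ 1) ∧
    (∀ l, |AW z.1 (t3 z.2) (t3 h) l - T ^ 2| ≤ 1)}

theorem isClosed_Om (T k : ℝ) (h m : R6) : IsClosed (Om T k h m) := by
  have h1 : Om T k h m = (⋂ l : Fin 3, {z : (ℝ × ℝ × ℝ) × R6 |
      ‖t3 z.2 l - (1 + k / T) • t3 m l‖ ≤ 1}) ∩
      (⋂ l : Fin 3, {z : (ℝ × ℝ × ℝ) × R6 | |AW z.1 (t3 z.2) (t3 h) l - T ^ 2| ≤ 1}) := by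
    ext z; simp [Om]
  rw [h1]
  refine IsClosed.inter (isClosed_iInter fun l => ?_) (isClosed_iInter fun l => ?_)
  · have hc : Continuous fun z : (ℝ × ℝ × ℝ) × R6 => t3 z.2 l :=
      (continuous_t3 l).comp continuous_snd
    exact isClosed_le (hc.sub continuous_const).norm continuous_const
  · have hc : Continuous fun z : (ℝ × ℝ × ℝ) × R6 => t3 z.2 l :=
      (continuous_t3 l).comp continuous_snd
    have hc1 : Continuous fun z : (ℝ × ℝ × ℝ) × R6 => (t3 z.2 l).1 := continuous_fst.comp hc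
    have hc2 : Continuous fun z : (ℝ × ℝ × ℝ) × R6 => (t3 z.2 l).2 := continuous_snd.comp hc
    have hA : Continuous fun z : (ℝ × ℝ × ℝ) × R6 => AW z.1 (t3 z.2) (t3 h) l := by
      simp only [AW, qf]
      fun_prop
    exact isClosed_le (hA.sub continuous_const).abs continuous_const

theorem Rg.mono {Q Q' T : ℝ} (hQ : 0 < Q) (hQQ : Q ≤ Q') (hT : 0 < T) {h m : R6}
    (hr : Rg Q T h m) : Rg Q' T h m where
  hm l := (hr.hm l).trans (mul_le_mul_of_nonneg_right hQQ hT.le)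
  hd i j hij := (hr.hd i j hij).trans (mul_le_mul_of_nonneg_right hQQ (abs_nonneg _))
  hZ := KM_mono hQ hQQ hr.hZ
  hF i j := (hr.hF i j).trans hQQ

theorem WN.mono {P P' T : ℝ} (hP : P ≤ P') {A : ℝ × ℝ × ℝ} {h v : R6} (hw : WN P T A h v) :
    WN P' T A h v := by
  obtain ⟨D, h1, h2⟩ := hw
  refine ⟨D, h1, fun i j => (h2 i j).trans (mul_le_mul_of_nonneg_right hP ?_)⟩
  have : 0 ≤ max ‖t3 h i‖ ‖t3 h j‖ := le_max_of_le_left (norm_nonneg _)
  positivity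

/-- the components of a regular point are large -/
theorem norm_ge {Q T : ℝ} (hQ : 1 ≤ Q) (hT : 0 < T) {h m : R6} (hr : Rg Q T h m) (l : Fin 3) :
    T ≤ 2 * Q ^ 2 * ‖t3 m l‖ := by
  obtain ⟨j, hj⟩ : ∃ j : Fin 3, l ≠ j := ⟨l + 1, by fin_cases l <;> decide⟩
  have h1 := hr.hd l j hj
  have h2 := hr.hm j
  have h3 : |dr (t3 m l) (t3 m j)| ≤ 2 * (‖t3 m l‖ * ‖t3 m j‖) := by
    have a1 := abs_fst_le (t3 m l)
    have a2 := abs_snd_le (t3 m l)
    have a3 := abs_fst_le (t3 m j)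
    have a4 := abs_snd_le (t3 m j)
    have b1 : |(t3 m l).1 * (t3 m j).2| ≤ ‖t3 m l‖ * ‖t3 m j‖ := by
      rw [abs_mul]; exact mul_le_mul a1 a4 (abs_nonneg _) (norm_nonneg _)
    have b2 : |(t3 m l).2 * (t3 m j).1| ≤ ‖t3 m l‖ * ‖t3 m j‖ := by
      rw [abs_mul]; exact mul_le_mul a2 a3 (abs_nonneg _) (norm_nonneg _)
    simp only [dr]
    rw [abs_le] at b1 b2 ⊢
    constructor <;> nlinarith [b1.1, b1.2, b2.1, b2.2]
  have h4 : T ^ 2 ≤ Q * (2 * (‖t3 m l‖ * (Q * T))) := by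
    refine h1.trans (mul_le_mul_of_nonneg_left (h3.trans ?_) (by linarith))
    exact mul_le_mul_of_nonneg_left (mul_le_mul_of_nonneg_left h2 (norm_nonneg _)) (by norm_num)
  have h5 : T * T ≤ T * (2 * Q ^ 2 * ‖t3 m l‖) := by nlinarith
  exact le_of_mul_le_mul_left h5 hT

/-- one point `x`: few values of `k` -/
theorem card_k {Q T : ℝ} (hQ : 2 ≤ Q) (hT : 0 < T) {h m : R6} (hr : Rg Q T h m)
    (z : (ℝ × ℝ × ℝ) × R6) (s : Finset ℕ) (hs : ∀ k ∈ s, z ∈ Om T (k : ℝ) h m) :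
    (s.card : ℝ) ≤ Q ^ 5 := by
  rcases s.eq_empty_or_nonempty with rfl | hne
  · simp; positivity
  have hm := norm_ge (by linarith) hT hr 0
  have hdiff : ∀ k ∈ s, ∀ k' ∈ s, |(k : ℝ) - k'| ≤ 4 * Q ^ 2 := by
    intro k hk k' hk'
    have h1 := (hs k hk).1 0
    have h2 := (hs k' hk').1 0
    have h3 : ‖(((k : ℝ) - k') / T) • t3 m 0‖ ≤ 2 := by
      have : (((k : ℝ) - k') / T) • t3 m 0 =
          (t3 z.2 0 - (1 + (k' : ℝ) / T) • t3 m 0) - (t3 z.2 0 - (1 + (k : ℝ) / T) • t3 m 0) := by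
        have : ((k : ℝ) - k') / T = (1 + (k : ℝ) / T) - (1 + (k' : ℝ) / T) := by ring
        rw [this, sub_smul]; abel
      rw [this]
      calc _ ≤ _ := norm_sub_le _ _
        _ ≤ 2 := by linarith
    rw [norm_smul, Real.norm_eq_abs, abs_div, abs_of_pos hT] at h3
    have h4 : |(k : ℝ) - k'| * T ≤ |(k : ℝ) - k'| * (2 * Q ^ 2 * ‖t3 m 0‖) :=
      mul_le_mul_of_nonneg_left hm (abs_nonneg _)
    have h5 : |(k : ℝ) - k'| * ‖t3 m 0‖ ≤ 2 * T := by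
      have h6 : |(k : ℝ) - k'| / T * ‖t3 m 0‖ = (|(k : ℝ) - k'| * ‖t3 m 0‖) / T := by ring
      rw [h6, div_le_iff₀ hT] at h3
      exact h3
    have h7 : |(k : ℝ) - k'| * T ≤ 4 * Q ^ 2 * T := by nlinarith [sq_nonneg Q]
    exact le_of_mul_le_mul_right h7 hT
  have hcard : s.card ≤ ⌊4 * Q ^ 2⌋₊ + 1 := by
    have hsub : s ⊆ Finset.Icc (s.min' hne) (s.min' hne + ⌊4 * Q ^ 2⌋₊) := by
      intro k hk
      rw [Finset.mem_Icc]
      refine ⟨s.min'_le k hk, ?_⟩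
      have h1 := hdiff k hk _ (s.min'_mem hne)
      have h2 : ((k - s.min' hne : ℕ) : ℝ) ≤ 4 * Q ^ 2 := by
        rw [Nat.cast_sub (s.min'_le k hk)]
        exact (le_abs_self _).trans h1
      have h3 := Nat.le_floor h2
      omega
    have := Finset.card_le_card hsub
    rw [Nat.card_Icc] at this
    omega
  have h1 : (s.card : ℝ) ≤ 4 * Q ^ 2 + 1 := by
    calc (s.card : ℝ) ≤ ((⌊4 * Q ^ 2⌋₊ + 1 : ℕ) : ℝ) := by exact_mod_cast hcard
      _ = (⌊4 * Q ^ 2⌋₊ : ℝ) + 1 := by push_cast; ring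
      _ ≤ 4 * Q ^ 2 + 1 := by
        have := Nat.floor_le (show (0 : ℝ) ≤ 4 * Q ^ 2 by positivity)
        linarith
  have h2 : (4 : ℝ) ≤ Q ^ 2 := by nlinarith
  have h3 : Q ^ 4 = Q ^ 2 * Q ^ 2 := by ring
  have h4 : Q ^ 5 = Q * Q ^ 4 := by ring
  nlinarith [sq_nonneg (Q ^ 2)]

/-- two points seen by the same `(A, m')` -/
theorem ray {T k k₀ : ℝ} (hT : 0 < T) (hk : 0 ≤ k) (hk₀ : 0 ≤ k₀) (m m₀ m' : R6)
    (h1 : ∀ l, ‖t3 m' l - (1 + k / T) • t3 m l‖ ≤ 1)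
    (h2 : ∀ l, ‖t3 m' l - (1 + k₀ / T) • t3 m₀ l‖ ≤ 1) :
    (∀ l, ‖t3 (m - m₀) l - ((1 + k / T)⁻¹ - (1 + k₀ / T)⁻¹) • t3 m' l‖ ≤ 2) ∧
    (∀ l, ‖t3 (m - m₀) l - ((1 + k₀ / T) / (1 + k / T) - 1) • t3 m₀ l‖ ≤ 2) ∧
    |(1 + k / T)⁻¹ - (1 + k₀ / T)⁻¹| * T ≤ |k - k₀| ∧
    |(1 + k₀ / T) / (1 + k / T) - 1| * T ≤ |k - k₀| := by
  have ha : 1 ≤ 1 + k / T := by have := div_nonneg hk hT.le; linarith
  have hb : 1 ≤ 1 + k₀ / T := by have := div_nonneg hk₀ hT.le; linarith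
  obtain ⟨a, ha'⟩ : ∃ a, a = 1 + k / T := ⟨_, rfl⟩
  obtain ⟨b, hb'⟩ : ∃ b, b = 1 + k₀ / T := ⟨_, rfl⟩
  have hab : a - b = (k - k₀) / T := by rw [ha', hb']; ring
  rw [← ha'] at h1 ha ⊢
  rw [← hb'] at h2 hb ⊢
  have ha0 : a ≠ 0 := by positivity
  have hb0 : b ≠ 0 := by positivity
  have hai : a⁻¹ ≤ 1 := inv_le_one_of_one_le₀ ha
  have hbi : b⁻¹ ≤ 1 := inv_le_one_of_one_le₀ hb
  have hai0 : 0 ≤ a⁻¹ := by positivity
  have hbi0 : 0 ≤ b⁻¹ := by positivity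
  refine ⟨fun l => ?_, fun l => ?_, ?_, ?_⟩
  · have e : t3 (m - m₀) l - (a⁻¹ - b⁻¹) • t3 m' l =
        b⁻¹ • (t3 m' l - b • t3 m₀ l) - a⁻¹ • (t3 m' l - a • t3 m l) := by
      rw [t3_sub, smul_sub, smul_sub, smul_smul, smul_smul, inv_mul_cancel₀ ha0,
        inv_mul_cancel₀ hb0, one_smul, one_smul, sub_smul]
      abel
    rw [e]
    calc _ ≤ ‖b⁻¹ • (t3 m' l - b • t3 m₀ l)‖ + ‖a⁻¹ • (t3 m' l - a • t3 m l)‖ := norm_sub_le _ _
      _ ≤ 1 + 1 := by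
        refine add_le_add ?_ ?_
        · rw [norm_smul, Real.norm_eq_abs, abs_of_nonneg hbi0]
          exact mul_le_one₀ hbi (norm_nonneg _) (h2 l)
        · rw [norm_smul, Real.norm_eq_abs, abs_of_nonneg hai0]
          exact mul_le_one₀ hai (norm_nonneg _) (h1 l)
      _ = 2 := by norm_num
  · have e : t3 (m - m₀) l - (b / a - 1) • t3 m₀ l =
        a⁻¹ • ((t3 m' l - b • t3 m₀ l) - (t3 m' l - a • t3 m l)) := by
      rw [t3_sub, smul_sub, smul_sub, smul_sub, smul_smul, smul_smul, inv_mul_cancel₀ ha0,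
        one_smul, sub_smul, one_smul, div_eq_inv_mul]
      abel
    rw [e, norm_smul, Real.norm_eq_abs, abs_of_nonneg hai0]
    calc a⁻¹ * ‖(t3 m' l - b • t3 m₀ l) - (t3 m' l - a • t3 m l)‖ ≤ 1 * (1 + 1) := by
          refine mul_le_mul hai ((norm_sub_le _ _).trans (add_le_add (h2 l) (h1 l)))
            (norm_nonneg _) (by norm_num)
      _ = 2 := by norm_num
  · have e : a⁻¹ - b⁻¹ = -((k - k₀) / T) * (a⁻¹ * b⁻¹) := by
      rw [← hab]; field_simp; ring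
    rw [e, abs_mul, abs_neg, abs_div, abs_of_pos hT, abs_of_nonneg (mul_nonneg hai0 hbi0)]
    have h3 : a⁻¹ * b⁻¹ ≤ 1 := mul_le_one₀ hai hbi0 hbi
    calc |k - k₀| / T * (a⁻¹ * b⁻¹) * T = |k - k₀| * (a⁻¹ * b⁻¹) := by field_simp
      _ ≤ |k - k₀| * 1 := mul_le_mul_of_nonneg_left h3 (abs_nonneg _)
      _ = |k - k₀| := mul_one _
  · have e : b / a - 1 = -((k - k₀) / T) * a⁻¹ := by
      rw [← hab]; field_simp; ring
    rw [e, abs_mul, abs_neg, abs_div, abs_of_pos hT, abs_of_nonneg hai0]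
    calc |k - k₀| / T * a⁻¹ * T = |k - k₀| * a⁻¹ := by field_simp
      _ ≤ |k - k₀| * 1 := mul_le_mul_of_nonneg_left hai (abs_nonneg _)
      _ = |k - k₀| := mul_one _

open Classical in
/-- counting at a fixed point `z = (A, m')` -/
theorem count {Q T R₁ : ℝ} {c c₁ c₃ : ℕ} (hQ : 2 ≤ Q) (hT : 0 < T) (h : Z6) (X : Finset Z6)
    (hR : 1 ≤ R₁) (hRT : R₁ ≤ T ^ (12 / 25 : ℝ)) (hTone : 1 ≤ T)
    (hX : ∀ x ∈ X, Rg Q T (r3 h) (mid (r3 h) (r3 x)))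
    (hc1 : c₁ ≤ c) (hc3 : (c₁ + 1) * c₃ ≤ c) (hc0 : 1 ≤ c)
    (hNEA : ∀ (m m' : R6) (k : ℝ) (A : ℝ × ℝ × ℝ), Rg Q T (r3 h) m →
      |k| ≤ T ^ (12 / 25 : ℝ) → (∀ l, ‖t3 m' l - (1 + k / T) • t3 m l‖ ≤ 1) →
      (∀ l, |AW A (t3 m') (t3 (r3 h)) l - T ^ 2| ≤ 1) →
      A ∈ KM (Q ^ c₁) ∧ ‖A - Zf T (t3 m) (t3 (r3 h))‖ ≤ Q ^ c₁ * T ^ (-(13 / 25) : ℝ) ∧
      (∀ i j, |bl A (t3 m' i) (t3 (r3 h) i) - bl A (t3 m' j) (t3 (r3 h) j)| ≤
        Q ^ c₁ * (1 + max ‖t3 (r3 h) i‖ ‖t3 (r3 h) j‖)) ∧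
      (∀ i j, i ≠ j → T ^ 2 ≤ Q ^ c₁ * |dr (t3 m' i) (t3 m' j)|))
    (hWIN : ∀ (m₀ m₁ : R6) (ν : ℝ) (A : ℝ × ℝ × ℝ), Rg (Q ^ (c₁ + 1)) T (r3 h) m₀ →
      Rg (Q ^ (c₁ + 1)) T (r3 h) m₁ → |ν| * T ≤ T ^ (49 / 100 : ℝ) →
      (∀ l, ‖t3 (m₁ - m₀) l - ν • t3 m₀ l‖ ≤ Q ^ (c₁ + 1)) →
      ‖A - Zf T (t3 m₀) (t3 (r3 h))‖ ≤ Q ^ (c₁ + 1) * T ^ (-(1 / 2) : ℝ) →
      (Q ^ (c₁ + 1)) ^ c₃ ≤ ‖m₁ - m₀‖ → WN ((Q ^ (c₁ + 1)) ^ c₃) T A (r3 h) (m₁ - m₀))
    (N : ℕ) (hN : ∀ k ∈ Finset.range N, (k : ℝ) ≤ R₁) (A : ℝ × ℝ × ℝ) (m' : R6) :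
    ∑ x ∈ X, ∑ k ∈ Finset.range N,
        (Om T (k : ℝ) (r3 h) (mid (r3 h) (r3 x))).indicator (fun _ => (1 : ℝ≥0∞)) (A, m') ≤
      (KM (Q ^ c)).indicator (fun _ => ENNReal.ofReal (Q ^ 5) *
        ∑' v : Z6, ({m : R6 | NR (Q ^ c) T R₁ A (r3 h) (r3 v) m}).indicator
          (fun _ => (1 : ℝ≥0∞)) m') A := by
  have hQ1 : 1 ≤ Q := by linarith
  let s : Z6 → Finset ℕ := fun x => (Finset.range N).filter fun k =>
    (A, m') ∈ Om T (k : ℝ) (r3 h) (mid (r3 h) (r3 x))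
  have hs : ∀ x, ∑ k ∈ Finset.range N,
      (Om T (k : ℝ) (r3 h) (mid (r3 h) (r3 x))).indicator (fun _ => (1 : ℝ≥0∞)) (A, m') =
      ((s x).card : ℝ≥0∞) := by
    intro x
    simp only [Set.indicator_apply, s]
    rw [Finset.sum_boole]
  simp only [hs]
  let Y : Finset Z6 := X.filter fun x => (s x).Nonempty
  have hY : ∑ x ∈ X, ((s x).card : ℝ≥0∞) ≤ ENNReal.ofReal (Q ^ 5) * (Y.card : ℝ≥0∞) := by
    have h1 : ∑ x ∈ X, ((s x).card : ℝ≥0∞) = ∑ x ∈ Y, ((s x).card : ℝ≥0∞) := by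
      symm
      refine Finset.sum_subset (Finset.filter_subset _ _) fun x hx hxY => ?_
      have : ¬ (s x).Nonempty := fun hne => hxY (Finset.mem_filter.2 ⟨hx, hne⟩)
      rw [Finset.not_nonempty_iff_eq_empty.1 this]; simp
    rw [h1]
    calc ∑ x ∈ Y, ((s x).card : ℝ≥0∞) ≤ ∑ _x ∈ Y, ENNReal.ofReal (Q ^ 5) := by
          refine Finset.sum_le_sum fun x hx => ?_
          have h2 := card_k hQ hT (hX x (Finset.mem_filter.1 hx).1) (A, m') (s x)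
            fun k hk => (Finset.mem_filter.1 hk).2
          rw [← ENNReal.ofReal_natCast]
          exact ENNReal.ofReal_le_ofReal h2
      _ = _ := by rw [Finset.sum_const, nsmul_eq_mul, mul_comm]
  refine hY.trans ?_
  rcases Y.eq_empty_or_nonempty with hYe | ⟨x₀, hx₀⟩
  · rw [hYe]; simp
  have hsx : ∀ x ∈ Y, ∃ k : ℝ, 0 ≤ k ∧ k ≤ R₁ ∧
      (A, m') ∈ Om T k (r3 h) (mid (r3 h) (r3 x)) := by
    intro x hx
    obtain ⟨k, hk⟩ := (Finset.mem_filter.1 hx).2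
    obtain ⟨hk1, hk2⟩ := Finset.mem_filter.1 hk
    exact ⟨k, Nat.cast_nonneg k, hN k hk1, hk2⟩
  have hrx : ∀ x ∈ Y, Rg Q T (r3 h) (mid (r3 h) (r3 x)) := fun x hx =>
    hX x (Finset.mem_filter.1 hx).1
  obtain ⟨k₀, hk₀, hk₀R, hz₀⟩ := hsx x₀ hx₀
  have hP1 : Q ^ c₁ ≤ Q ^ c := pow_le_pow_right₀ hQ1 hc1
  have hPq : Q ≤ Q ^ (c₁ + 1) := by
    calc Q = Q ^ 1 := (pow_one Q).symm
      _ ≤ Q ^ (c₁ + 1) := pow_le_pow_right₀ hQ1 (by omega)
  have hPP : (Q ^ (c₁ + 1)) ^ c₃ ≤ Q ^ c := by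
    rw [← pow_mul]; exact pow_le_pow_right₀ hQ1 hc3
  have hP2 : (2 : ℝ) ≤ Q ^ c := by
    calc (2 : ℝ) ≤ Q := hQ
      _ = Q ^ 1 := (pow_one Q).symm
      _ ≤ Q ^ c := pow_le_pow_right₀ hQ1 hc0
  have hkabs : ∀ k : ℝ, 0 ≤ k → k ≤ R₁ → |k| ≤ T ^ (12 / 25 : ℝ) := fun k h0 h1 => by
    rw [abs_of_nonneg h0]; exact h1.trans hRT
  obtain ⟨hA, hAZ, htb, hdd⟩ := hNEA _ m' k₀ A (hrx x₀ hx₀) (hkabs k₀ hk₀ hk₀R) hz₀.1 hz₀.2
  have hAK : A ∈ KM (Q ^ c) := KM_mono (by positivity) hP1 hA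
  rw [Set.indicator_of_mem hAK]
  gcongr
  have hinj : Set.InjOn (fun x : Z6 => x - x₀) (Y : Set Z6) := fun a _ b _ hab =>
    sub_left_injective hab
  have hcard : (Y.card : ℝ≥0∞) = ((Y.image fun x => x - x₀).card : ℝ≥0∞) := by
    rw [Finset.card_image_of_injOn hinj]
  rw [hcard]
  calc ((Y.image fun x => x - x₀).card : ℝ≥0∞) =
        ∑ v ∈ Y.image fun x => x - x₀, (1 : ℝ≥0∞) := by simp
    _ ≤ ∑ v ∈ Y.image fun x => x - x₀, ({m : R6 | NR (Q ^ c) T R₁ A (r3 h) (r3 v) m}).indicator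
          (fun _ => (1 : ℝ≥0∞)) m' := by
        refine Finset.sum_le_sum fun v hv => ?_
        obtain ⟨x, hx, rfl⟩ := Finset.mem_image.1 hv
        have hmem : m' ∈ {m : R6 | NR (Q ^ c) T R₁ A (r3 h) (r3 (x - x₀)) m} := by
          obtain ⟨k, hk, hkR, hz⟩ := hsx x hx
          obtain ⟨ra, rb, rd, re⟩ := ray hT hk hk₀ (mid (r3 h) (r3 x)) (mid (r3 h) (r3 x₀)) m'
            hz.1 hz₀.1
          rw [mid_sub] at ra rb
          have hkk : |k - k₀| ≤ R₁ := by rw [abs_le]; constructor <;> linarith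
          refine ⟨fun l => (hz₀.2 l).trans (by linarith), fun i j => (htb i j).trans ?_,
            fun i j hij => (hdd i j hij).trans (mul_le_mul_of_nonneg_right hP1 (abs_nonneg _)),
            ⟨_, (rd.trans hkk).trans ?_, fun l => (ra l).trans hP2⟩, fun hv => ?_⟩
          · refine mul_le_mul_of_nonneg_right hP1 ?_
            have : 0 ≤ max ‖t3 (r3 h) i‖ ‖t3 (r3 h) j‖ := le_max_of_le_left (norm_nonneg _)
            linarith
          · nlinarith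
          · have hw := hWIN (mid (r3 h) (r3 x₀)) (mid (r3 h) (r3 x))
              ((1 + k₀ / T) / (1 + k / T) - 1) A
              (Rg.mono (by linarith) hPq hT (hrx x₀ hx₀)) (Rg.mono (by linarith) hPq hT (hrx x hx))
              ?_ ?_ ?_ ?_
            · rw [mid_sub] at hw
              exact WN.mono hPP hw
            · refine (re.trans (hkk.trans hRT)).trans ?_
              exact Real.rpow_le_rpow_of_exponent_le hTone (by norm_num)
            · intro l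
              rw [mid_sub]
              exact (rb l).trans (hQ.trans hPq)
            · refine hAZ.trans (mul_le_mul (pow_le_pow_right₀ hQ1 (by omega)) ?_
                (Real.rpow_nonneg hT.le _) (by positivity))
              exact Real.rpow_le_rpow_of_exponent_le hTone (by norm_num)
            · rw [mid_sub]; exact hPP.trans hv
        rw [Set.indicator_of_mem hmem]
    _ ≤ _ := ENNReal.sum_le_tsum _

theorem box (hN : NEAStmt) (hV : VOLStmt) (hW : WINStmt) : BOXStmt := by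
  obtain ⟨c₁, hN⟩ := hN
  obtain ⟨c₂, hV⟩ := hV
  obtain ⟨c₃, hW⟩ := hW
  refine ⟨c₁ + c₂ + (c₁ + 1) * c₃ + 5, ?_⟩
  intro T Q hQ hQT R₁ h X hR hRT hh hhL hX
  obtain ⟨c, hc⟩ : ∃ c, c = c₁ + c₂ + (c₁ + 1) * c₃ + 5 := ⟨_, rfl⟩
  rw [← hc] at hQT ⊢
  rcases X.eq_empty_or_nonempty with rfl | ⟨x₁, hx₁⟩
  · simp
  have hQ1 : 1 ≤ Q := by linarith
  -- `T` is positive
  have hT0 : 0 ≤ T := by
    have h1 := (norm_nonneg _).trans ((hX x₁ hx₁).hm 0)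
    by_contra hneg
    push Not at hneg
    nlinarith
  have hTone : 1 ≤ T := by
    by_contra hlt
    push Not at hlt
    have h1 : T ^ (1 / 100000 : ℝ) < 1 := Real.rpow_lt_one hT0 hlt (by norm_num)
    have h2 : 1 ≤ Q ^ c := one_le_pow₀ hQ1
    linarith
  have hT : 0 < T := by linarith
  have hQc : ∀ a, a ≤ c → Q ^ a ≤ T ^ (1 / 100000 : ℝ) := fun a ha =>
    (pow_le_pow_right₀ hQ1 ha).trans hQT
  have hQ2 : 2 ≤ Q ^ (c₁ + 1) := by
    calc (2 : ℝ) ≤ Q := hQ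
      _ = Q ^ 1 := (pow_one Q).symm
      _ ≤ Q ^ (c₁ + 1) := pow_le_pow_right₀ hQ1 (by omega)
  have hPq : Q ≤ Q ^ (c₁ + 1) := by
    calc Q = Q ^ 1 := (pow_one Q).symm
      _ ≤ Q ^ (c₁ + 1) := pow_le_pow_right₀ hQ1 (by omega)
  have hLx : 0 ≤ Lx T := Real.rpow_nonneg hT0 _
  obtain ⟨N, hNdef⟩ : ∃ N, N = ⌊R₁⌋₊ + 1 := ⟨_, rfl⟩
  have hNle : ∀ k ∈ Finset.range N, (k : ℝ) ≤ R₁ := by
    intro k hk
    rw [Finset.mem_range, hNdef] at hk
    have h1 : (k : ℝ) ≤ (⌊R₁⌋₊ : ℝ) := by exact_mod_cast Nat.lt_succ_iff.1 hk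
    exact h1.trans (Nat.floor_le (by linarith))
  have hNge : R₁ ≤ (N : ℝ) := by
    rw [hNdef]; push_cast; exact (Nat.lt_floor_add_one R₁).le
  let F : (ℝ × ℝ × ℝ) × R6 → ℝ≥0∞ := fun z => ∑ x ∈ X, ∑ k ∈ Finset.range N,
    (Om T (k : ℝ) (r3 h) (mid (r3 h) (r3 x))).indicator (fun _ => (1 : ℝ≥0∞)) z
  have hFm : Measurable F := by
    refine Finset.measurable_fun_sum _ fun x _ => Finset.measurable_fun_sum _ fun k _ => ?_
    exact measurable_const.indicator (isClosed_Om _ _ _ _).measurableSet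
  -- lower bound
  have hlow : (X.card : ℝ≥0∞) * (ENNReal.ofReal R₁ * ENNReal.ofReal (1 / (Q ^ c₂ * T ^ 6))) ≤
      ∫⁻ z, F z := by
    have h1 : ∫⁻ z, F z = ∑ x ∈ X, ∑ k ∈ Finset.range N,
        volume (Om T (k : ℝ) (r3 h) (mid (r3 h) (r3 x))) := by
      simp only [F]
      rw [lintegral_finsetSum _ fun x _ => Finset.measurable_fun_sum _ fun k _ =>
        measurable_const.indicator (isClosed_Om _ _ _ _).measurableSet]
      refine Finset.sum_congr rfl fun x _ => ?_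
      rw [lintegral_finsetSum _ fun k _ =>
        measurable_const.indicator (isClosed_Om _ _ _ _).measurableSet]
      refine Finset.sum_congr rfl fun k _ => ?_
      rw [lintegral_indicator (isClosed_Om _ _ _ _).measurableSet]
      simp
    rw [h1]
    calc (X.card : ℝ≥0∞) * (ENNReal.ofReal R₁ * ENNReal.ofReal (1 / (Q ^ c₂ * T ^ 6)))
        = ∑ _x ∈ X, ENNReal.ofReal R₁ * ENNReal.ofReal (1 / (Q ^ c₂ * T ^ 6)) := by
          rw [Finset.sum_const, nsmul_eq_mul]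
      _ ≤ _ := by
        refine Finset.sum_le_sum fun x hx => ?_
        calc ENNReal.ofReal R₁ * ENNReal.ofReal (1 / (Q ^ c₂ * T ^ 6)) ≤
              (N : ℝ≥0∞) * ENNReal.ofReal (1 / (Q ^ c₂ * T ^ 6)) := by
              gcongr
              rw [← ENNReal.ofReal_natCast]
              exact ENNReal.ofReal_le_ofReal hNge
          _ = ∑ _k ∈ Finset.range N, ENNReal.ofReal (1 / (Q ^ c₂ * T ^ 6)) := by
              rw [Finset.sum_const, nsmul_eq_mul, Finset.card_range]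
          _ ≤ _ := by
              refine Finset.sum_le_sum fun k hk => ?_
              refine hV T Q hQ (hQc c₂ (by omega)) (r3 h) (mid (r3 h) (r3 x)) k hhL (hX x hx) ?_
              rw [abs_of_nonneg (Nat.cast_nonneg k)]
              exact (hNle k hk).trans hRT
  -- upper bound
  have hup : ∫⁻ z, F z ≤ ENNReal.ofReal (Q ^ 5) *
      ∫⁻ A in KM (Q ^ c), ∑' v : Z6, volume {m : R6 | NR (Q ^ c) T R₁ A (r3 h) (r3 v) m} := by
    have hcount := count (c := c) (c₁ := c₁) (c₃ := c₃) hQ hT h X hR hRT hTone hX (by omega)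
      (by omega) (by omega)
      (fun m m' k A hr hk h1 h2 => hN T Q hQ (hQc c₁ (by omega)) (r3 h) m m' k A hhL hr hk h1 h2)
      (fun m₀ m₁ ν A hr₀ hr₁ hν h1 h2 h3 => hW T (Q ^ (c₁ + 1)) hQ2
        (by rw [← pow_mul]; exact hQc _ (by omega)) (r3 h) m₀ m₁ ν A
        (hhL.trans (mul_le_mul_of_nonneg_right hPq hLx)) hr₀ hr₁ hν h1 h2 h3) N hNle
    rw [Measure.volume_eq_prod, lintegral_prod _ hFm.aemeasurable,
      ← lintegral_const_mul' _ _ ENNReal.ofReal_ne_top,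
      ← lintegral_indicator (measurableSet_KM _)]
    refine lintegral_mono fun A => ?_
    by_cases hA : A ∈ KM (Q ^ c)
    · rw [Set.indicator_of_mem hA]
      calc ∫⁻ m', F (A, m') ≤ ∫⁻ m', ENNReal.ofReal (Q ^ 5) * ∑' v : Z6,
            (toMeasurable volume {m : R6 | NR (Q ^ c) T R₁ A (r3 h) (r3 v) m}).indicator
              (fun _ => (1 : ℝ≥0∞)) m' := by
            refine lintegral_mono fun m' => ?_
            have h1 := hcount A m'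
            rw [Set.indicator_of_mem hA] at h1
            refine h1.trans ?_
            gcongr with v
            exact subset_toMeasurable _ _
        _ = ENNReal.ofReal (Q ^ 5) * ∑' v : Z6,
            volume {m : R6 | NR (Q ^ c) T R₁ A (r3 h) (r3 v) m} := by
            rw [lintegral_const_mul' _ _ ENNReal.ofReal_ne_top, lintegral_tsum fun v =>
              (measurable_const.indicator (measurableSet_toMeasurable _ _)).aemeasurable]
            congr 1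
            refine tsum_congr fun v => ?_
            rw [lintegral_indicator (measurableSet_toMeasurable _ _)]
            simp
    · rw [Set.indicator_of_notMem hA]
      have : ∀ m', F (A, m') = 0 := by
        intro m'
        have h1 := hcount A m'
        rw [Set.indicator_of_notMem hA] at h1
        exact le_antisymm h1 zero_le
      simp [this]
  obtain ⟨I, hI⟩ : ∃ I, I = ∫⁻ A in KM (Q ^ c), ∑' v : Z6,
    volume {m : R6 | NR (Q ^ c) T R₁ A (r3 h) (r3 v) m} := ⟨_, rfl⟩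
  rw [← hI] at hup ⊢
  have hR0 : 0 < R₁ := by linarith
  have h1 : (X.card : ℝ≥0∞) = ENNReal.ofReal (Q ^ c₂ * T ^ 6 / R₁) *
      ((X.card : ℝ≥0∞) * (ENNReal.ofReal R₁ * ENNReal.ofReal (1 / (Q ^ c₂ * T ^ 6)))) := by
    rw [← ENNReal.ofReal_mul hR0.le, mul_left_comm, ← ENNReal.ofReal_mul (by positivity)]
    have : Q ^ c₂ * T ^ 6 / R₁ * (R₁ * (1 / (Q ^ c₂ * T ^ 6))) = 1 := by
      field_simp
    rw [this]; simp
  rw [h1]
  calc ENNReal.ofReal (Q ^ c₂ * T ^ 6 / R₁) *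
      ((X.card : ℝ≥0∞) * (ENNReal.ofReal R₁ * ENNReal.ofReal (1 / (Q ^ c₂ * T ^ 6)))) ≤
      ENNReal.ofReal (Q ^ c₂ * T ^ 6 / R₁) * (ENNReal.ofReal (Q ^ 5) * I) := by
        exact mul_le_mul_right (hlow.trans hup) _
    _ = ENNReal.ofReal (Q ^ c₂ * T ^ 6 / R₁ * Q ^ 5) * I := by
        rw [← mul_assoc, ← ENNReal.ofReal_mul (by positivity)]
    _ ≤ ENNReal.ofReal (Q ^ c * T ^ 6 / R₁) * I := by
        gcongr
        have h2 : Q ^ c₂ * T ^ 6 / R₁ * Q ^ 5 = Q ^ (c₂ + 5) * T ^ 6 / R₁ := by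
          rw [pow_add]; ring
        rw [h2]
        gcongr
        omega

end Pool.Agent.F5H.BN.H67
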