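import Pool.Agent.F5H.StmtsD
import Pool.Agent.Helper3_F5H.C_CHA
import Pool.Agent.Helper68_F5.Itp

/-!
# F5H, row C_KV: bound of the dual vectors in the body
-/

set_option autoImplicit false

open MeasureTheory Complex ComplexConjugate

namespace Pool.Agent.F5H.BC.H67

open Pool.Agent.BTL Pool.Agent.F5S Pool.Agent.F5H Pool.Agent.F5H.BC
open Pool.Agent.Helper68_F5 (bf wd pr)

/-! ### Numbers -/

theorem T_pos {T Q : ℝ} {c : ℕ} (hQ : 2 ≤ Q) (hT : Q ^ c ≤ T ^ (1 / 100000 : ℝ)) {x : ℝ}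
    (hx : 1 ≤ x) (hL : x ≤ Q * Lx T) : 0 < T := by
  rcases lt_trichotomy T 0 with h | h | h
  · exfalso
    have h1 : Lx T ≤ 0 := by
      unfold Lx
      rw [Real.rpow_def_of_neg h]
      refine mul_nonpos_of_nonneg_of_nonpos (Real.exp_pos _).le ?_
      apply Real.cos_nonpos_of_pi_div_two_le_of_le
      · nlinarith [Real.pi_pos]
      · nlinarith [Real.pi_pos]
    nlinarith
  · exfalso
    rw [h, Real.zero_rpow (by norm_num)] at hT
    have : 0 < Q ^ c := by positivity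
    linarith
  · exact h

/-- comparison of powers -/
theorem pl {T Q : ℝ} (hQ : 2 ≤ Q) (hT : 1 ≤ T) {c : ℕ} (hQT : Q ^ c ≤ T ^ (1 / 100000 : ℝ)) {k : ℕ}
    (hk : k ≤ c) {a b : ℝ} (hab : a + 1 / 100000 ≤ b) : Q ^ k * T ^ a ≤ T ^ b := by
  have hT0 : 0 < T := by linarith
  calc Q ^ k * T ^ a ≤ T ^ (1 / 100000 : ℝ) * T ^ a :=
        mul_le_mul_of_nonneg_right ((pow_le_pow_right₀ (by linarith) hk).trans hQT)
          (Real.rpow_nonneg hT0.le _)
    _ = T ^ (1 / 100000 + a) := (Real.rpow_add hT0 _ _).symm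
    _ ≤ T ^ b := Real.rpow_le_rpow_of_exponent_le hT (by linarith)

/-- the numerical facts -/
structure Nm (T Q : ℝ) : Prop where
  hQ : 2 ≤ Q
  hT : 0 < T
  n1 : 24 * Q ^ 2 * (Q * Lx T) ^ 2 ≤ T ^ 2
  n2 : Q * Lx T ≤ T
  n3 : 4 * Q ^ 2 * Rx T ≤ T * T ^ (677 / 2000 : ℝ)

theorem mk_nm {T Q : ℝ} (hQ : 2 ≤ Q) (hT0 : 0 < T) (hT : Q ^ 30 ≤ T ^ (1 / 100000 : ℝ)) :
    Nm T Q := by
  have hQ1 : 1 < Q ^ 30 := one_lt_pow₀ (by linarith) (by norm_num)
  have hT1 : 1 ≤ T := by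
    by_contra h
    have := Real.rpow_le_one hT0.le (le_of_not_ge h) (by norm_num : (0 : ℝ) ≤ 1 / 100000)
    linarith
  have hp : ∀ k : ℕ, (2 : ℝ) ^ k ≤ Q ^ k := fun k => pow_le_pow_left₀ (by norm_num) hQ k
  refine ⟨hQ, hT0, ?_, ?_, ?_⟩
  · have h1 : Q ^ 9 * T ^ (277 / 250 : ℝ) ≤ T ^ (2 : ℝ) :=
      pl hQ hT1 hT (by norm_num) (by norm_num)
    have h2 : (Q * Lx T) ^ 2 = Q ^ 2 * T ^ (277 / 250 : ℝ) := by
      unfold Lx
      rw [mul_pow, ← Real.rpow_natCast (T ^ (277 / 500 : ℝ)), ← Real.rpow_mul hT0.le]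
      norm_num
    rw [h2]
    have h3 : T ^ (2 : ℝ) = T ^ 2 := by rw [← Real.rpow_natCast]; norm_num
    rw [h3] at h1
    refine le_trans ?_ h1
    have h4 : 24 * Q ^ 2 * (Q ^ 2 * T ^ (277 / 250 : ℝ)) = 24 * (Q ^ 4 * T ^ (277 / 250 : ℝ)) := by
      ring
    have h5 : Q ^ 9 * T ^ (277 / 250 : ℝ) = Q ^ 5 * (Q ^ 4 * T ^ (277 / 250 : ℝ)) := by ring
    rw [h4, h5]
    refine mul_le_mul_of_nonneg_right ?_ (by positivity)
    have := hp 5
    norm_num at this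
    linarith
  · have h1 : Q ^ 1 * T ^ (277 / 500 : ℝ) ≤ T ^ (1 : ℝ) :=
      pl hQ hT1 hT (by norm_num) (by norm_num)
    rw [pow_one, Real.rpow_one] at h1
    exact h1
  · have h1 : Q ^ 4 * T ^ (669 / 500 + 2 * rho0) ≤ T ^ (2677 / 2000 : ℝ) := by
      refine pl hQ hT1 hT (by norm_num) ?_
      unfold rho0
      norm_num
    have h2 : T * T ^ (677 / 2000 : ℝ) = T ^ (2677 / 2000 : ℝ) := by
      rw [← Real.rpow_one_add' hT0.le (by norm_num)]
      norm_num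
    rw [h2]
    refine le_trans ?_ h1
    unfold Rx
    refine mul_le_mul_of_nonneg_right ?_ (by positivity)
    have := hp 2
    norm_num at this
    nlinarith [sq_nonneg Q]

/-! ### Geometry -/

theorem bf_le (B : ℝ × ℝ × ℝ) (z w : ℂ) :
    |bf B z w| ≤ (|B.1| + 2 * |B.2.1| + |B.2.2|) * (‖z‖ * ‖w‖) := by
  have a1 := Complex.abs_re_le_norm z
  have a2 := Complex.abs_im_le_norm z
  have a3 := Complex.abs_re_le_norm w
  have a4 := Complex.abs_im_le_norm w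
  have h1 : |z.re * w.re| ≤ ‖z‖ * ‖w‖ := by
    rw [abs_mul]; exact mul_le_mul a1 a3 (abs_nonneg _) (norm_nonneg _)
  have h2 : |z.re * w.im| ≤ ‖z‖ * ‖w‖ := by
    rw [abs_mul]; exact mul_le_mul a1 a4 (abs_nonneg _) (norm_nonneg _)
  have h3 : |z.im * w.re| ≤ ‖z‖ * ‖w‖ := by
    rw [abs_mul]; exact mul_le_mul a2 a3 (abs_nonneg _) (norm_nonneg _)
  have h4 : |z.im * w.im| ≤ ‖z‖ * ‖w‖ := by
    rw [abs_mul]; exact mul_le_mul a2 a4 (abs_nonneg _) (norm_nonneg _)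
  have h5 : |z.re * w.im + z.im * w.re| ≤ 2 * (‖z‖ * ‖w‖) :=
    (abs_add_le _ _).trans (by linarith)
  have t1 : |B.1 * (z.re * w.re)| ≤ |B.1| * (‖z‖ * ‖w‖) := by
    rw [abs_mul]; exact mul_le_mul_of_nonneg_left h1 (abs_nonneg _)
  have t2 : |B.2.1 * (z.re * w.im + z.im * w.re)| ≤ |B.2.1| * (2 * (‖z‖ * ‖w‖)) := by
    rw [abs_mul]; exact mul_le_mul_of_nonneg_left h5 (abs_nonneg _)
  have t3 : |B.2.2 * (z.im * w.im)| ≤ |B.2.2| * (‖z‖ * ‖w‖) := by
    rw [abs_mul]; exact mul_le_mul_of_nonneg_left h4 (abs_nonneg _)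
  unfold bf
  have := abs_add_three (B.1 * (z.re * w.re)) (B.2.1 * (z.re * w.im + z.im * w.re))
    (B.2.2 * (z.im * w.im))
  linarith

theorem rh_bd {T : ℝ} (hT : 0 < T) {z : ℂ} (hz : ‖z‖ ≤ T) : T / 2 ≤ rh T z ∧ rh T z ≤ T := by
  have h0 := norm_nonneg z
  unfold rh
  constructor
  · apply Real.le_sqrt_of_sq_le
    nlinarith
  · rw [Real.sqrt_le_left hT.le]
    nlinarith [sq_nonneg ‖z‖]

/-- the assumptions of the geometric part -/
structure Ge (T L D : ℝ) (H : Fin 3 → ℂ) (ep : Fin 3 → ℝ) (th : ℝ) : Prop where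
  hT : 0 < T
  hL : ∀ l, ‖H l‖ ≤ L
  hLT : L ≤ T
  hH : ∀ l, 0 < ‖H l‖
  hep : ∀ l, ep l ^ 2 = 1
  hD : ∀ l, ‖H 2‖ ≤ D * ‖H l‖
  hs : ∀ l : Fin 3, l ≠ 2 → 4 * |(conj (cexp ((th : ℂ) * I)) * H 2).re| ≤ ‖H l‖

section geo

variable {T L D : ℝ} {H : Fin 3 → ℂ} {ep : Fin 3 → ℝ} {th : ℝ}

theorem Ge.rh (g : Ge T L D H ep th) (l : Fin 3) : T / 2 ≤ rh T (H l) ∧ BC.rh T (H l) ≤ T :=
  rh_bd g.hT ((g.hL l).trans g.hLT)

/-- the cosine of the angle between point and difference -/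
theorem Ge.x_le (g : Ge T L D H ep th) {l : Fin 3} (hl : l ≠ 2) :
    |BC.rh T (H 2) / BC.rh T (H l) * (conj (cexp ((th : ℂ) * I)) * H 2).re / ‖H l‖| ≤ 1 / 2 := by
  have h1 := g.rh l
  have h2 := g.rh 2
  have hT := g.hT
  have hH := g.hH l
  have h3 := g.hs l hl
  have hr : 0 < BC.rh T (H l) := by linarith
  have hr2 : 0 < BC.rh T (H 2) := by linarith
  rw [abs_div, abs_mul, abs_div, abs_of_pos hr, abs_of_pos hr2, abs_of_pos hH,
    div_le_div_iff₀ hH (by norm_num)]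
  have h4 : BC.rh T (H 2) / BC.rh T (H l) ≤ 2 := by
    rw [div_le_iff₀ hr]; linarith
  have h5 := mul_le_mul_of_nonneg_right h4 (abs_nonneg (conj (cexp ((th : ℂ) * I)) * H 2).re)
  linarith

theorem Ge.norm_wG (g : Ge T L D H ep th) (l : Fin 3) : ‖wG T H ep th l‖ = 1 := by
  unfold wG
  split_ifs with h
  · exact Complex.norm_exp_ofReal_mul_I th
  · have hx := g.x_le h
    have hH := g.hH l
    have he := g.hep l
    obtain ⟨x, hxd⟩ : ∃ x, x = BC.rh T (H 2) / BC.rh T (H l) *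
      (conj (cexp ((th : ℂ) * I)) * H 2).re / ‖H l‖ := ⟨_, rfl⟩
    rw [← hxd] at hx ⊢
    have hx2 : x ^ 2 ≤ 1 := by
      have := abs_le.1 hx
      nlinarith [this.1, this.2]
    have hs : √(1 - x ^ 2) ^ 2 = 1 - x ^ 2 := Real.sq_sqrt (by linarith)
    rw [norm_mul, norm_div, Complex.norm_real, norm_norm, div_self hH.ne', one_mul]
    have e : ‖(x : ℂ) + ((ep l * √(1 - x ^ 2) : ℝ) : ℂ) * I‖ ^ 2 = 1 := by
      rw [Complex.sq_norm, Complex.normSq_apply]
      simp only [add_re, ofReal_re, mul_re, I_re, mul_zero, ofReal_im, I_im, mul_one, sub_self,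
        add_zero, add_im, mul_im, zero_add]
      rw [show x * x + ep l * √(1 - x ^ 2) * (ep l * √(1 - x ^ 2)) =
        x ^ 2 + ep l ^ 2 * √(1 - x ^ 2) ^ 2 by ring, hs, he]
      ring
    have h0 := norm_nonneg ((x : ℂ) + ((ep l * √(1 - x ^ 2) : ℝ) : ℂ) * I)
    nlinarith

theorem Ge.tn (g : Ge T L D H ep th) (l : Fin 3) :
    tG T H ep th l ^ 2 + nG T H ep th l ^ 2 = ‖H l‖ ^ 2 := by
  have h1 : ‖conj (wG T H ep th l) * H l‖ = ‖H l‖ := by
    rw [norm_mul, Complex.norm_conj, g.norm_wG, one_mul]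
  rw [← h1, Complex.sq_norm, Complex.normSq_apply, tG, nG]
  ring

theorem Ge.tG_le (g : Ge T L D H ep th) (l : Fin 3) : |tG T H ep th l| ≤ ‖H l‖ := by
  apply abs_le_of_sq_le_sq _ (norm_nonneg _)
  have := g.tn l
  nlinarith [sq_nonneg (nG T H ep th l)]

theorem Ge.nG_le (g : Ge T L D H ep th) (l : Fin 3) : |nG T H ep th l| ≤ ‖H l‖ := by
  apply abs_le_of_sq_le_sq _ (norm_nonneg _)
  have := g.tn l
  nlinarith [sq_nonneg (tG T H ep th l)]

theorem Ge.tG_eq (g : Ge T L D H ep th) {l : Fin 3} (hl : l ≠ 2) : tG T H ep th l =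
    ‖H l‖ * (BC.rh T (H 2) / BC.rh T (H l) * (conj (cexp ((th : ℂ) * I)) * H 2).re / ‖H l‖) := by
  have hH := g.hH l
  unfold tG wG
  rw [if_neg hl]
  obtain ⟨x, hxd⟩ : ∃ x, x = BC.rh T (H 2) / BC.rh T (H l) *
      (conj (cexp ((th : ℂ) * I)) * H 2).re / ‖H l‖ := ⟨_, rfl⟩
  rw [← hxd]
  obtain ⟨y, hy⟩ : ∃ y, y = ep l * √(1 - x ^ 2) := ⟨_, rfl⟩
  rw [← hy]
  have e1 : conj (H l / (‖H l‖ : ℂ) * ((x : ℂ) + (y : ℂ) * I)) * H l =
      ((‖H l‖ : ℝ) : ℂ) * ((x : ℂ) - (y : ℂ) * I) := by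
    have hc : ((‖H l‖ : ℝ) : ℂ) ≠ 0 := by exact_mod_cast hH.ne'
    rw [map_mul, map_div₀, Complex.conj_ofReal, map_add, map_mul, Complex.conj_ofReal,
      Complex.conj_ofReal, Complex.conj_I]
    have e2 : conj (H l) * H l = ((‖H l‖ : ℝ) : ℂ) ^ 2 := by
      rw [mul_comm, Complex.mul_conj, Complex.normSq_eq_norm_sq]
      push_cast
      rfl
    field_simp
    rw [show conj (H l) * ((x : ℂ) + -((y : ℂ) * I)) * H l =
      (conj (H l) * H l) * ((x : ℂ) + -((y : ℂ) * I)) by ring, e2]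
    ring
  rw [e1]
  simp

theorem Ge.nG_ge (g : Ge T L D H ep th) {l : Fin 3} (hl : l ≠ 2) :
    ‖H l‖ / 2 ≤ |nG T H ep th l| := by
  have h1 := g.tn l
  have h2 := g.x_le hl
  have hH := g.hH l
  have h3 : |tG T H ep th l| ≤ ‖H l‖ / 2 := by
    rw [g.tG_eq hl, abs_mul, abs_norm]
    calc _ ≤ ‖H l‖ * (1 / 2) := mul_le_mul_of_nonneg_left h2 hH.le
      _ = _ := by ring
  have h4 : tG T H ep th l ^ 2 ≤ (‖H l‖ / 2) ^ 2 := by
    rw [← sq_abs]
    exact pow_le_pow_left₀ (abs_nonneg _) h3 2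
  rw [← abs_of_pos (show 0 < ‖H l‖ / 2 by linarith)]
  apply sq_le_sq.1
  nlinarith

/-- the size of a form -/
def sz (B : ℝ × ℝ × ℝ) : ℝ := |B.1| + 2 * |B.2.1| + |B.2.2|

theorem sz_nonneg (B : ℝ × ℝ × ℝ) : 0 ≤ sz B := by unfold sz; positivity

theorem Ge.norm_mG (g : Ge T L D H ep th) (l : Fin 3) : ‖mG T H ep th l‖ ≤ T := by
  have h1 := g.rh l
  have hT := g.hT
  unfold mG
  rw [norm_mul, g.norm_wG, mul_one, Complex.norm_real, Real.norm_eq_abs,
    abs_of_nonneg (by linarith)]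
  exact h1.2

theorem Ge.mu_le (g : Ge T L D H ep th) (B : ℝ × ℝ × ℝ) (l : Fin 3) :
    |muG T H ep th B l| ≤ 2 * sz B * T := by
  have h1 := g.rh l
  have hT := g.hT
  have hB := sz_nonneg B
  have h2 := bf_le B (mG T H ep th l) (mG T H ep th l)
  have h3 := bf_le B (H l) (H l)
  have h4 := g.norm_mG l
  have h5 := (g.hL l).trans g.hLT
  have h6 : ‖mG T H ep th l‖ * ‖mG T H ep th l‖ ≤ T * T :=
    mul_le_mul h4 h4 (norm_nonneg _) hT.le
  have h7 : ‖H l‖ * ‖H l‖ ≤ T * T := mul_le_mul h5 h5 (norm_nonneg _) hT.le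
  have h8 := mul_le_mul_of_nonneg_left h6 hB
  have h9 := mul_le_mul_of_nonneg_left h7 hB
  unfold muG
  rw [abs_neg, abs_div, abs_of_pos (show 0 < 2 * BC.rh T (H l) by linarith),
    div_le_iff₀ (by linarith)]
  have h10 : |bf B (mG T H ep th l) (mG T H ep th l) + bf B (H l) (H l) / 4| ≤
      sz B * (T * T) + sz B * (T * T) := by
    refine (abs_add_le _ _).trans ?_
    rw [abs_div, abs_of_pos (by norm_num : (0 : ℝ) < 4)]
    unfold sz at h8 h9 ⊢
    have := abs_nonneg (bf B (H l) (H l))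
    linarith
  refine h10.trans ?_
  have h11 : sz B * T * T ≤ sz B * T * (2 * BC.rh T (H l)) :=
    mul_le_mul_of_nonneg_left (by linarith) (by positivity)
  linarith

theorem Ge.GG_le (g : Ge T L D H ep th) (B : ℝ × ℝ × ℝ) :
    |GG T H ep th B 0| ≤ 3 * sz B * T * ‖H 2‖ := by
  have hT := g.hT
  have hB := sz_nonneg B
  have h1 := g.mu_le B 2
  have h2 := g.tG_le 2
  have h3 := bf_le B (mG T H ep th 2) (H 2)
  have h4 := g.norm_mG 2
  unfold GG
  rw [zero_mul, add_zero]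
  refine (abs_add_le _ _).trans ?_
  rw [abs_mul]
  have h5 : |muG T H ep th B 2| * |tG T H ep th 2| ≤ 2 * sz B * T * ‖H 2‖ :=
    mul_le_mul h1 h2 (abs_nonneg _) (by positivity)
  have h6 : ‖mG T H ep th 2‖ * ‖H 2‖ ≤ T * ‖H 2‖ :=
    mul_le_mul_of_nonneg_right h4 (norm_nonneg _)
  have h7 := mul_le_mul_of_nonneg_left h6 hB
  unfold sz at *
  linarith

theorem Ge.y_le (g : Ge T L D H ep th) (B : ℝ × ℝ × ℝ) (hD : 0 ≤ D) (l : Fin 3) :
    |yG T H ep th B 0 l| ≤ 6 * sz B * T * (D + 1) := by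
  have hT := g.hT
  have hB := sz_nonneg B
  unfold yG
  split_ifs with h
  · rw [abs_zero]; positivity
  · have hH := g.hH l
    have hn := g.nG_ge h
    have h1 := g.GG_le B
    have h2 := bf_le B (mG T H ep th l) (H l)
    have h3 := g.mu_le B l
    have h4 := g.tG_le l
    have h5 := g.norm_mG l
    have h6 : ‖mG T H ep th l‖ * ‖H l‖ ≤ T * ‖H l‖ :=
      mul_le_mul_of_nonneg_right h5 (norm_nonneg _)
    have h7 : |bf B (mG T H ep th l) (H l)| ≤ sz B * (T * ‖H l‖) :=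
      h2.trans (mul_le_mul_of_nonneg_left h6 hB)
    have h8 : |muG T H ep th B l| * |tG T H ep th l| ≤ 2 * sz B * T * ‖H l‖ :=
      mul_le_mul h3 h4 (abs_nonneg _) (by positivity)
    have h9 : 3 * sz B * T * ‖H 2‖ ≤ 3 * sz B * T * (D * ‖H l‖) :=
      mul_le_mul_of_nonneg_left (g.hD l) (by positivity)
    have h10 : |GG T H ep th B 0 - bf B (mG T H ep th l) (H l) -
        muG T H ep th B l * tG T H ep th l| ≤ 3 * sz B * T * (D + 1) * ‖H l‖ := by
      refine (abs_sub _ _).trans ?_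
      rw [abs_mul]
      have := abs_sub (GG T H ep th B 0) (bf B (mG T H ep th l) (H l))
      linarith
    rw [abs_div, div_le_iff₀ (by linarith)]
    refine h10.trans ?_
    have h11 : 0 ≤ 6 * sz B * T * (D + 1) := by positivity
    have h12 := mul_le_mul_of_nonneg_left hn h11
    linarith

/-- radial component of the dual vector -/
noncomputable def al (T : ℝ) (H : Fin 3 → ℂ) (ep : Fin 3 → ℝ) (th : ℝ) (K : Fin 3 → ℂ)
    (l : Fin 3) : ℝ := (conj (K l) * wG T H ep th l).re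

/-- tangential component of the dual vector -/
noncomputable def be (T : ℝ) (H : Fin 3 → ℂ) (ep : Fin 3 → ℝ) (th : ℝ) (K : Fin 3 → ℂ)
    (l : Fin 3) : ℝ := (conj (K l) * (I * wG T H ep th l)).re

theorem sp_eq (K : Fin 3 → ℂ) (B : ℝ × ℝ × ℝ) (y : ℝ) :
    F5.H58.sp K (tv T H ep th B y) =
      ∑ l, (al T H ep th K l * muG T H ep th B l + be T H ep th K l * yG T H ep th B y l) := by
  unfold F5.H58.sp tv al be
  refine Finset.sum_congr rfl fun l _ => ?_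
  simp only [mul_re, mul_im, add_re, add_im, ofReal_re, ofReal_im, I_re, I_im, conj_re, conj_im]
  ring

theorem mu_lin (B : ℝ × ℝ × ℝ) (l : Fin 3) : muG T H ep th B l =
    B.1 * muG T H ep th (1, 0, 0) l + B.2.1 * muG T H ep th (0, 1, 0) l +
      B.2.2 * muG T H ep th (0, 0, 1) l := by
  simp only [muG, bf]
  ring

theorem GG_lin (B : ℝ × ℝ × ℝ) : GG T H ep th B 0 =
    B.1 * GG T H ep th (1, 0, 0) 0 + B.2.1 * GG T H ep th (0, 1, 0) 0 +
      B.2.2 * GG T H ep th (0, 0, 1) 0 := by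
  simp only [GG, muG, bf]
  ring

theorem y_lin (B : ℝ × ℝ × ℝ) (l : Fin 3) : yG T H ep th B 0 l =
    B.1 * yG T H ep th (1, 0, 0) 0 l + B.2.1 * yG T H ep th (0, 1, 0) 0 l +
      B.2.2 * yG T H ep th (0, 0, 1) 0 l := by
  unfold yG
  split_ifs with h
  · ring
  · rw [GG_lin B, mu_lin B l]
    simp only [bf]
    ring

theorem sp_lin (K : Fin 3 → ℂ) (B : ℝ × ℝ × ℝ) :
    F5.H58.sp K (tv T H ep th B 0) =
      B.1 * F5.H58.sp K (tv T H ep th (1, 0, 0) 0) +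
      B.2.1 * F5.H58.sp K (tv T H ep th (0, 1, 0) 0) +
      B.2.2 * F5.H58.sp K (tv T H ep th (0, 0, 1) 0) := by
  rw [sp_eq, sp_eq, sp_eq, sp_eq, Finset.mul_sum, Finset.mul_sum, Finset.mul_sum,
    ← Finset.sum_add_distrib, ← Finset.sum_add_distrib]
  refine Finset.sum_congr rfl fun l _ => ?_
  rw [mu_lin B l, y_lin B l]
  ring

/-- the windows bound the radial part -/
theorem Ge.rad (g : Ge T L D H ep th) (hD : 0 ≤ D) (K : Fin 3 → ℂ) {W b : ℝ}
    (h1 : |F5.H58.sp K (tv T H ep th (1, 0, 0) 0)| ≤ W)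
    (h2 : |F5.H58.sp K (tv T H ep th (0, 1, 0) 0)| ≤ W)
    (h3 : |F5.H58.sp K (tv T H ep th (0, 0, 1) 0)| ≤ W)
    (hb : ∀ l, |be T H ep th K l| ≤ b) (B : ℝ × ℝ × ℝ) :
    |∑ l, al T H ep th K l * muG T H ep th B l| ≤ sz B * W + 18 * b * sz B * T * (D + 1) := by
  have hT := g.hT
  have hB := sz_nonneg B
  have hW : 0 ≤ W := (abs_nonneg _).trans h1
  have hb0 : 0 ≤ b := (abs_nonneg _).trans (hb 0)
  have e := sp_eq (T := T) (H := H) (ep := ep) (th := th) K B 0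
  rw [Finset.sum_add_distrib] at e
  have s1 : |F5.H58.sp K (tv T H ep th B 0)| ≤ sz B * W := by
    rw [sp_lin]
    refine (abs_add_three _ _ _).trans ?_
    rw [abs_mul, abs_mul, abs_mul]
    have a1 := mul_le_mul_of_nonneg_left h1 (abs_nonneg B.1)
    have a2 := mul_le_mul_of_nonneg_left h2 (abs_nonneg B.2.1)
    have a3 := mul_le_mul_of_nonneg_left h3 (abs_nonneg B.2.2)
    have a4 : 0 ≤ |B.2.1| * W := by positivity
    unfold sz
    linarith
  have s2 : |∑ l, be T H ep th K l * yG T H ep th B 0 l| ≤ 18 * b * sz B * T * (D + 1) := by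
    refine (Finset.abs_sum_le_sum_abs _ _).trans ?_
    have : ∀ l ∈ (Finset.univ : Finset (Fin 3)), |be T H ep th K l * yG T H ep th B 0 l| ≤
        b * (6 * sz B * T * (D + 1)) := by
      intro l _
      rw [abs_mul]
      exact mul_le_mul (hb l) (g.y_le B hD l) (abs_nonneg _) hb0
    refine (Finset.sum_le_sum this).trans (le_of_eq ?_)
    rw [Finset.sum_const, Finset.card_univ, Fintype.card_fin, nsmul_eq_mul]
    push_cast
    ring
  have e2 : ∑ l, al T H ep th K l * muG T H ep th B l = F5.H58.sp K (tv T H ep th B 0) -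
      ∑ l, be T H ep th K l * yG T H ep th B 0 l := by rw [e]; ring
  rw [e2]
  refine (abs_sub _ _).trans ?_
  linarith

/-- the interpolation form -/
theorem itf (w : Fin 3 → ℂ) {Q : ℝ} (hw : ∀ l, ‖w l‖ = 1) (hQ : 0 < Q)
    (hs : ∀ l m, l ≠ m → 1 ≤ Q * |wd (w l) (w m)|) (j : Fin 3) :
    ∃ B : ℝ × ℝ × ℝ, sz B ≤ 4 * Q ^ 2 ∧ bf B (w j) (w j) = 1 ∧
      ∀ l, l ≠ j → bf B (w l) (w l) = 0 := by
  obtain ⟨i, i', hi, hi', hl⟩ : ∃ i i' : Fin 3, j ≠ i ∧ j ≠ i' ∧ ∀ l, l ≠ j → l = i ∨ l = i' := by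
    revert j; decide
  have h1 := hs j i hi
  have h2 := hs j i' hi'
  have p1 : 0 < |wd (w j) (w i)| := by
    by_contra h
    have := mul_nonpos_of_nonneg_of_nonpos hQ.le (le_of_not_gt h)
    linarith
  have p2 : 0 < |wd (w j) (w i')| := by
    by_contra h
    have := mul_nonpos_of_nonneg_of_nonpos hQ.le (le_of_not_gt h)
    linarith
  have n1 : wd (w j) (w i) ≠ 0 := abs_pos.1 p1
  have n2 : wd (w j) (w i') ≠ 0 := abs_pos.1 p2
  refine ⟨(1 / (wd (w j) (w i) * wd (w j) (w i'))) • pr (w i) (w i'), ?_, ?_, ?_⟩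
  · have hc : |1 / (wd (w j) (w i) * wd (w j) (w i'))| ≤ Q ^ 2 := by
      rw [abs_div, abs_one, abs_mul, div_le_iff₀ (by positivity)]
      have := mul_le_mul h1 h2 zero_le_one (by positivity)
      nlinarith
    have a1 := (Complex.abs_re_le_norm (w i)).trans (hw i).le
    have a2 := (Complex.abs_im_le_norm (w i)).trans (hw i).le
    have a3 := (Complex.abs_re_le_norm (w i')).trans (hw i').le
    have a4 := (Complex.abs_im_le_norm (w i')).trans (hw i').le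
    have m1 : ∀ x y : ℝ, |x| ≤ 1 → |y| ≤ 1 → |x * y| ≤ 1 := by
      intro x y hx hy
      rw [abs_mul]
      exact mul_le_one₀ hx (abs_nonneg _) hy
    have q1 : |(pr (w i) (w i')).1| ≤ 1 := m1 _ _ a2 a4
    have q3 : |(pr (w i) (w i')).2.2| ≤ 1 := m1 _ _ a1 a3
    have q2 : |(pr (w i) (w i')).2.1| ≤ 1 := by
      unfold pr
      simp only
      rw [abs_div, abs_neg, abs_of_pos (by norm_num : (0 : ℝ) < 2), div_le_iff₀ (by norm_num)]
      refine (abs_add_le _ _).trans ?_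
      have := m1 _ _ a2 a3
      have := m1 _ _ a1 a4
      linarith
    unfold sz
    simp only [Prod.smul_fst, Prod.smul_snd, smul_eq_mul]
    rw [abs_mul, abs_mul, abs_mul]
    have b0 := abs_nonneg (1 / (wd (w j) (w i) * wd (w j) (w i')))
    have b1 := mul_le_mul hc q1 (abs_nonneg _) (by positivity)
    have b2 := mul_le_mul hc q2 (abs_nonneg _) (by positivity)
    have b3 := mul_le_mul hc q3 (abs_nonneg _) (by positivity)
    linarith
  · rw [Helper68_F5.bf_smul, Helper68_F5.bf_pr_self]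
    field_simp
  · intro l hlj
    rw [Helper68_F5.bf_smul, Helper68_F5.bf_pr_self]
    rcases hl l hlj with h | h
    · rw [h, Helper68_F5.wd_self]; ring
    · rw [h, Helper68_F5.wd_self]; ring

theorem Ge.mu_eq (g : Ge T L D H ep th) (B : ℝ × ℝ × ℝ) (l : Fin 3) :
    muG T H ep th B l = -(BC.rh T (H l) / 2 * bf B (wG T H ep th l) (wG T H ep th l)) -
      bf B (H l) (H l) / (8 * BC.rh T (H l)) := by
  have h1 := g.rh l
  have hT := g.hT
  have hr : BC.rh T (H l) ≠ 0 := by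
    have : 0 < BC.rh T (H l) := by linarith
    exact this.ne'
  have e : bf B (mG T H ep th l) (mG T H ep th l) =
      BC.rh T (H l) ^ 2 * bf B (wG T H ep th l) (wG T H ep th l) := by
    unfold mG
    rw [Helper68_F5.bf_real, Helper68_F5.bf_comm, Helper68_F5.bf_real]
    ring
  unfold muG
  rw [e]
  field_simp
  ring

/-- bound of the radial components -/
theorem Ge.al_le (g : Ge T L D H ep th) (hD : 0 ≤ D) (K : Fin 3 → ℂ) {W b Q : ℝ} (hQ : 0 < Q)
    (h1 : |F5.H58.sp K (tv T H ep th (1, 0, 0) 0)| ≤ W)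
    (h2 : |F5.H58.sp K (tv T H ep th (0, 1, 0) 0)| ≤ W)
    (h3 : |F5.H58.sp K (tv T H ep th (0, 0, 1) 0)| ≤ W)
    (hb : ∀ l, |be T H ep th K l| ≤ b)
    (hs : ∀ l m, l ≠ m → 1 ≤ Q * |wd (wG T H ep th l) (wG T H ep th m)|)
    (hLQ : 24 * Q ^ 2 * L ^ 2 ≤ T ^ 2) (l : Fin 3) :
    |al T H ep th K l| * T ≤ 32 * Q ^ 2 * (W + 18 * b * T * (D + 1)) := by
  have hT := g.hT
  have hW : 0 ≤ W := (abs_nonneg _).trans h1
  have hb0 : 0 ≤ b := (abs_nonneg _).trans (hb 0)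
  obtain ⟨j, _, hj⟩ := Finset.exists_max_image (Finset.univ : Finset (Fin 3))
    (fun l => |al T H ep th K l|) ⟨0, Finset.mem_univ _⟩
  have hj' : ∀ l, |al T H ep th K l| ≤ |al T H ep th K j| := fun l => hj l (Finset.mem_univ _)
  have hL0 : 0 ≤ L := (norm_nonneg _).trans (g.hL 0)
  obtain ⟨a, ha⟩ : ∃ a, a = |al T H ep th K j| := ⟨_, rfl⟩
  have ha0 : 0 ≤ a := ha ▸ abs_nonneg _
  rw [← ha] at hj'
  obtain ⟨B, hB, hB1, hB0⟩ := itf (fun l => wG T H ep th l) g.norm_wG hQ hs j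
  have hBn := sz_nonneg B
  have key := g.rad hD K h1 h2 h3 hb B
  have e1 : ∑ l, al T H ep th K l * muG T H ep th B l =
      -(al T H ep th K j * (BC.rh T (H j) / 2)) -
        ∑ l, al T H ep th K l * (bf B (H l) (H l) / (8 * BC.rh T (H l))) := by
    have e2 : ∀ l ∈ (Finset.univ : Finset (Fin 3)), al T H ep th K l * muG T H ep th B l =
        (if l = j then -(al T H ep th K j * (BC.rh T (H j) / 2)) else 0) -
          al T H ep th K l * (bf B (H l) (H l) / (8 * BC.rh T (H l))) := by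
      intro l _
      rw [g.mu_eq B l]
      split_ifs with h
      · rw [h, hB1]; ring
      · rw [hB0 l h]; ring
    rw [Finset.sum_congr rfl e2, Finset.sum_sub_distrib, Finset.sum_ite_eq' Finset.univ j,
      if_pos (Finset.mem_univ _)]
  have e3 : |∑ l, al T H ep th K l * (bf B (H l) (H l) / (8 * BC.rh T (H l)))| ≤ a * T / 8 := by
    refine (Finset.abs_sum_le_sum_abs _ _).trans ?_
    have : ∀ l ∈ (Finset.univ : Finset (Fin 3)),
        |al T H ep th K l * (bf B (H l) (H l) / (8 * BC.rh T (H l)))| ≤ a * (T / 24) := by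
      intro l _
      have hr := g.rh l
      rw [abs_mul]
      refine mul_le_mul (hj' l) ?_ (abs_nonneg _) ha0
      rw [abs_div, abs_of_pos (show 0 < 8 * BC.rh T (H l) by linarith),
        div_le_iff₀ (by linarith)]
      have i1 := bf_le B (H l) (H l)
      have i2 : ‖H l‖ * ‖H l‖ ≤ L ^ 2 := by
        rw [sq]; exact mul_le_mul (g.hL l) (g.hL l) (norm_nonneg _) hL0
      have i3 : |bf B (H l) (H l)| ≤ 4 * Q ^ 2 * L ^ 2 :=
        i1.trans (mul_le_mul hB i2 (by positivity) (by positivity))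
      have i4 : T / 24 * (8 * (T / 2)) ≤ T / 24 * (8 * BC.rh T (H l)) :=
        mul_le_mul_of_nonneg_left (by linarith [hr.1]) (by positivity)
      nlinarith
    refine (Finset.sum_le_sum this).trans (le_of_eq ?_)
    rw [Finset.sum_const, Finset.card_univ, Fintype.card_fin, nsmul_eq_mul]
    push_cast
    ring
  rw [e1] at key
  have e4 : a * (T / 4) ≤ |al T H ep th K j * (BC.rh T (H j) / 2)| := by
    have hr := g.rh j
    rw [abs_mul, ← ha, abs_of_pos (show 0 < BC.rh T (H j) / 2 by linarith)]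
    exact mul_le_mul_of_nonneg_left (by linarith) ha0
  have e5 : |al T H ep th K j * (BC.rh T (H j) / 2)| ≤
      |-(al T H ep th K j * (BC.rh T (H j) / 2)) -
        ∑ l, al T H ep th K l * (bf B (H l) (H l) / (8 * BC.rh T (H l)))| +
      |∑ l, al T H ep th K l * (bf B (H l) (H l) / (8 * BC.rh T (H l)))| := by
    have := abs_add_le (-(al T H ep th K j * (BC.rh T (H j) / 2)) -
        ∑ l, al T H ep th K l * (bf B (H l) (H l) / (8 * BC.rh T (H l))))
      (∑ l, al T H ep th K l * (bf B (H l) (H l) / (8 * BC.rh T (H l))))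
    rw [sub_add_cancel, abs_neg] at this
    exact this
  have e6 : sz B * W + 18 * b * sz B * T * (D + 1) = sz B * (W + 18 * b * T * (D + 1)) := by ring
  rw [e6] at key
  have e7 : sz B * (W + 18 * b * T * (D + 1)) ≤ 4 * Q ^ 2 * (W + 18 * b * T * (D + 1)) :=
    mul_le_mul_of_nonneg_right hB (by positivity)
  have e8 : |al T H ep th K l| * T ≤ a * T := mul_le_mul_of_nonneg_right (hj' l) hT.le
  linarith

theorem Ge.norm_K (g : Ge T L D H ep th) (K : Fin 3 → ℂ) (l : Fin 3) :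
    ‖K l‖ ≤ |al T H ep th K l| + |be T H ep th K l| := by
  have h1 : ‖conj (K l) * wG T H ep th l‖ = ‖K l‖ := by
    rw [norm_mul, Complex.norm_conj, g.norm_wG, mul_one]
  have h2 : be T H ep th K l = -(conj (K l) * wG T H ep th l).im := by
    unfold be
    simp only [mul_re, mul_im, I_re, I_im]
    ring
  rw [← h1, h2, abs_neg]
  exact Complex.norm_le_abs_re_add_abs_im _

end geo

/-! ### The statement -/

theorem sg_sq (s : Bool × Bool) (l : Fin 3) : sg s l ^ 2 = 1 := by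
  obtain ⟨a, b⟩ := s
  fin_cases l <;> cases a <;> cases b <;> simp [sg]

theorem norm_le_cp {k : R6} {C : ℝ} (hC : ∀ l, ‖cp k l‖ ≤ C) : ‖k‖ ≤ C := by
  have h0 : ‖k.1‖ ≤ C := hC 0
  have h1 : ‖k.2.1‖ ≤ C := hC 1
  have h2 : ‖k.2.2‖ ≤ C := hC 2
  rw [Prod.norm_def, Prod.norm_def (x := k.2)]
  exact max_le h0 (max_le h1 h2)

/-- the bound with explicit exponent -/
theorem kv_core {T Q : ℝ} (hQ : 2 ≤ Q) (hT : Q ^ 30 ≤ T ^ (1 / 100000 : ℝ))
    (A : ℝ × ℝ × ℝ) (V : Fin 3 → ℝ) (s : Bool × Bool) (th : ℝ) (h k : R6) (hA : A ∈ KM Q)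
    (hR : Rg T Q V) (hS : Sz Q V h) (hG : Gd Q T (hG A h) (sg s) th)
    (hB : BD T Q Q (fun l => Q * V l) (BC.hG A h) (sg s) th (kG A k)) : ‖k‖ ≤ Q ^ 30 * V 0 := by
  obtain ⟨hV2, hV21, hV10, hV0L, _⟩ := hR
  have hT0 : 0 < T := T_pos hQ hT (by linarith : 1 ≤ V 0) hV0L
  have nm := mk_nm hQ hT0 hT
  obtain ⟨hg1, hg2, hg3, hg4⟩ := hG
  obtain ⟨w1, w2, w3, _, _, w6⟩ := hB
  have hQ0 : 0 < Q := by linarith
  have hQ1 : 1 ≤ Q := by linarith
  obtain ⟨_, _, _, _, _, hsz, hszk⟩ := H3.cha.1 A Q hQ1 hA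
  have hV0 : 1 ≤ V 0 := by linarith
  have hH0 : ∀ l, 0 < ‖hG A h l‖ := by
    intro l
    have := (hg1 l).1
    by_contra hc
    have := mul_nonpos_of_nonneg_of_nonpos hQ0.le (le_of_not_gt hc)
    linarith
  have hVl : ∀ l, V 2 ≤ V l := by
    intro l
    fin_cases l
    · exact hV21.trans hV10
    · exact hV21
    · exact le_refl _
  have hV0l : ∀ l, V l ≤ V 0 := by
    intro l
    fin_cases l
    · exact le_refl _
    · exact hV10
    · exact hV21.trans hV10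
  have hVH : ∀ l, V l ≤ Q ^ 2 * ‖hG A h l‖ := by
    intro l
    have h1 := (hS l).1
    have h2 := (hsz (cp h l)).1
    calc V l ≤ Q * ‖cp h l‖ := h1
      _ ≤ Q * (Q * ‖gA A (cp h l)‖) := mul_le_mul_of_nonneg_left h2 hQ0.le
      _ = _ := by unfold hG; ring
  have hHV : ‖hG A h 2‖ ≤ 2 * Q ^ 2 * V 2 := by
    have h1 := (hS 2).2
    have h2 := (hsz (cp h 2)).2
    calc ‖hG A h 2‖ ≤ 2 * Q * ‖cp h 2‖ := h2
      _ ≤ 2 * Q * (Q * V 2) := mul_le_mul_of_nonneg_left h1 (by positivity)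
      _ = _ := by ring
  have g : Ge T (Q * Lx T) (2 * Q ^ 4) (hG A h) (sg s) th := by
    refine ⟨hT0, fun l => (hg1 l).2, nm.n2, hH0, sg_sq s, ?_, ?_⟩
    · intro l
      calc ‖hG A h 2‖ ≤ 2 * Q ^ 2 * V 2 := hHV
        _ ≤ 2 * Q ^ 2 * (Q ^ 2 * ‖hG A h l‖) :=
          mul_le_mul_of_nonneg_left ((hVl l).trans (hVH l)) (by positivity)
        _ = _ := by ring
    · intro l hl
      have h1 := hg2 l hl
      have h2 := nm.n3
      have h3 : 4 * Q * (T * |(conj (cexp ((th : ℂ) * I)) * hG A h 2).re|) ≤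
          4 * Q * (Q * Rx T) := mul_le_mul_of_nonneg_left hg3 (by positivity)
      have h4 : T * T ^ (677 / 2000 : ℝ) ≤ T * (Q * ‖hG A h l‖) :=
        mul_le_mul_of_nonneg_left h1 hT0.le
      have h5 : (Q * T) * (4 * |(conj (cexp ((th : ℂ) * I)) * hG A h 2).re|) ≤
          (Q * T) * ‖hG A h l‖ := by linarith
      exact le_of_mul_le_mul_left h5 (by positivity)
  have hb : ∀ l, |be T (hG A h) (sg s) th (kG A k) l| ≤ Q * V 0 := fun l =>
    (w6 l).trans (mul_le_mul_of_nonneg_left (hV0l l) hQ0.le)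
  have hs : ∀ l m, l ≠ m → 1 ≤ Q * |wd (wG T (hG A h) (sg s) th l) (wG T (hG A h) (sg s) th m)| := by
    intro l m hlm
    have := hg4 l m hlm
    have e : (conj (wG T (hG A h) (sg s) th l) * wG T (hG A h) (sg s) th m).im =
        wd (wG T (hG A h) (sg s) th l) (wG T (hG A h) (sg s) th m) := by
      simp only [wd, mul_im, conj_re, conj_im]
      ring
    rw [e] at this
    exact this
  have hal := g.al_le (by positivity) (kG A k) hQ0 w1 w2 w3 hb hs nm.n1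
  have hal' : ∀ l, |al T (hG A h) (sg s) th (kG A k) l| ≤ 1760 * Q ^ 7 * V 0 := by
    intro l
    have h1 := hal l
    have h2 : 32 * Q ^ 2 * (Q * T + 18 * (Q * V 0) * T * (2 * Q ^ 4 + 1)) ≤
        1760 * Q ^ 7 * V 0 * T := by
      have q3 : Q ^ 3 ≤ Q ^ 7 := pow_le_pow_right₀ hQ1 (by norm_num)
      have i1 : Q ^ 3 ≤ Q ^ 7 * V 0 := by nlinarith [pow_pos hQ0 7]
      have i2 : Q ^ 3 * V 0 ≤ Q ^ 7 * V 0 := mul_le_mul_of_nonneg_right q3 (by linarith)
      have i3 : 32 * Q ^ 2 * (Q + 18 * (Q * V 0) * (2 * Q ^ 4 + 1)) ≤ 1760 * Q ^ 7 * V 0 := by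
        have : 32 * Q ^ 2 * (Q + 18 * (Q * V 0) * (2 * Q ^ 4 + 1)) =
          32 * Q ^ 3 + 1152 * (Q ^ 7 * V 0) + 576 * (Q ^ 3 * V 0) := by ring
        rw [this]
        linarith
      have := mul_le_mul_of_nonneg_right i3 hT0.le
      linarith
    exact le_of_mul_le_mul_right (h1.trans h2) hT0
  have hK : ∀ l, ‖kG A k l‖ ≤ 1761 * Q ^ 7 * V 0 := by
    intro l
    have h1 := g.norm_K (kG A k) l
    have h2 := hal' l
    have h3 := hb l
    have h4 : Q * V 0 ≤ Q ^ 7 * V 0 := by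
      refine mul_le_mul_of_nonneg_right ?_ (by linarith)
      calc Q = Q ^ 1 := (pow_one Q).symm
        _ ≤ Q ^ 7 := pow_le_pow_right₀ hQ1 (by norm_num)
    linarith
  apply norm_le_cp
  intro l
  have h1 := (hszk (cp k l)).1
  have h2 : ‖kA A (cp k l)‖ ≤ 1761 * Q ^ 7 * V 0 := hK l
  calc ‖cp k l‖ ≤ 4 * Q * ‖kA A (cp k l)‖ := h1
    _ ≤ 4 * Q * (1761 * Q ^ 7 * V 0) := mul_le_mul_of_nonneg_left h2 (by positivity)
    _ = 7044 * (Q ^ 8 * V 0) := by ring
    _ ≤ Q ^ 22 * (Q ^ 8 * V 0) := by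
        refine mul_le_mul_of_nonneg_right ?_ (by positivity)
        have : (2 : ℝ) ^ 22 ≤ Q ^ 22 := pow_le_pow_left₀ (by norm_num) hQ 22
        norm_num at this
        linarith
    _ = Q ^ 30 * V 0 := by ring

theorem kv : KVStmt := by
  refine ⟨30, by norm_num, 2, le_refl _, ?_⟩
  intro T Q hQ _ hT A V s th h k hA hR hS hG hB
  exact kv_core hQ hT A V s th h k hA hR hS hG hB

end Pool.Agent.F5H.BC.H67
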