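import Pool.Agent.F5H.StmtsG
import Pool.Agent.Helper67_F5H.CKV

/-!
# F5H, row C_KV30: bound of the dual vectors in the body, explicit exponent
-/

set_option autoImplicit false

namespace Pool.Agent.F5H.BC.H67

open Pool.Agent.BTL Pool.Agent.F5S Pool.Agent.F5H Pool.Agent.F5H.BC

theorem kv30 : KV30Stmt := by
  refine ⟨2, le_refl _, ?_⟩
  intro T Q hQ _ hT A V s th h k hA hR hS hG hB
  exact kv_core hQ ((pow_le_pow_right₀ (by linarith) (by norm_num)).trans hT) A V s th h k hA hR hS
    hG hB

end Pool.Agent.F5H.BC.H67
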